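import Pool.Agent.H70.AR.LTRR

/-!
# All reducts, all arities: determining positions
-/

set_option autoImplicit false
set_option linter.unusedVariables false

namespace Pool.Agent.H37.AR

open Pool.Agent.H68.BP Pool.Agent.H58.SF Pool.Agent.H53.GC Pool.Agent.H53.NR Pool.Agent.H53.GR
open Pool.Agent.H57.SO (Pal Col vt Exa Sb FBl Sbn Bh fib sigF Same Uni Can Stp)
open Pool.Agent.H44.SO (ZS JS Loc OfT LInj sig0 str0 B2)
open Pool.Agent.H57.AR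
open Function

theorem pf_JNER (hSHV : T_SHV) (hSHC : T_SHC) (hJNEW : T_JNEW) : T_JNER := by
  intro σ ρ V S X _ P 𝔸 𝔹 M c hs h hcore s κ J hJ
  obtain ⟨V₀, hV₀, c₀, hS⟩ := hSHV σ ρ V S X P 𝔸 𝔹 M c hs
  obtain ⟨h₀, hW, hK⟩ := hSHC σ ρ V S X P 𝔸 𝔹 M c hs V₀ c₀ hS h hcore
  exact hJNEW sig0 V₀ S X P (str0 V₀) M c₀ hS.stp h₀ hW s κ J
    (Pool.Agent.H70.AR.jsr_js hS hK hJ)

end Pool.Agent.H37.AR
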