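import Pool.Agent.H57.AR.Targets

/-!
# All reducts, all arities: tuples in arbitrary orders
-/

set_option autoImplicit false
set_option linter.unusedVariables false

namespace Pool.Agent.H37.AR

open Pool.Agent.H68.BP Pool.Agent.H58.SF Pool.Agent.H53.GC Pool.Agent.H53.NR Pool.Agent.H53.GR
open Pool.Agent.H57.SO (Pal Col vt Exa Sb FBl Sbn Bh fib sigF Same Uni Can Stp)
open Pool.Agent.H57.AR
open Function

theorem pf_ORDR (hSYR : T_SYR) : T_ORDR := by
  intro σ ρ V S X _ P 𝔸 𝔹 M c hs W _ x rk hrk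
  have hex : ∀ v : Set.range x, ∃ w, x w = v.1 := fun v => v.2
  choose g hg using hex
  have hinj : Injective (fun v : Set.range x => rk (g v)) := by
    intro v v' h
    have h1 := (hrk _ _).1 h
    rw [hg, hg] at h1
    exact Subtype.ext h1
  obtain ⟨f, hlt, hB, -, -⟩ := hSYR σ ρ V S X P 𝔸 𝔹 M c hs (Set.range x) ℕ
    (fun v => rk (g v)) (fun v => v.1) (fun _ _ => True) hinj (fun _ _ h => h)
  have hr : ∀ w, rk (g ⟨x w, w, rfl⟩) = rk w := fun w => (hrk _ _).2 (hg ⟨x w, w, rfl⟩)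
  have hlt' : ∀ a b, f ⟨x a, a, rfl⟩ < f ⟨x b, b, rfl⟩ ↔ rk a < rk b := by
    intro a b
    rw [hlt, hr, hr]
  have heq : ∀ a b, f ⟨x a, a, rfl⟩ = f ⟨x b, b, rfl⟩ ↔ x a = x b := by
    intro a b
    rw [← hrk]
    constructor
    · intro h
      have h1 := hlt' a b
      have h2 := hlt' b a
      rw [h] at h1 h2
      exact le_antisymm (not_lt.1 fun h' => lt_irrefl _ (h2.2 h'))
        (not_lt.1 fun h' => lt_irrefl _ (h1.2 h'))
    · intro h
      have h1 := hlt' a b
      have h2 := hlt' b a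
      rw [h] at h1 h2
      exact le_antisymm (not_lt.1 fun h' => lt_irrefl _ (h2.1 h'))
        (not_lt.1 fun h' => lt_irrefl _ (h1.1 h'))
  refine ⟨fun w => f ⟨x w, w, rfl⟩, ?_, hlt'⟩
  unfold tp
  refine Prod.ext ?_ ?_
  · funext a b
    exact propext (heq a b)
  · funext l z
    refine propext ?_
    show 𝔹 l (fun i => f ⟨x (z i), z i, rfl⟩) ↔ 𝔹 l (fun i => x (z i))
    rw [hB l (fun i => ⟨x (z i), z i, rfl⟩)]
    constructor
    · exact fun h => h.1
    · intro h
      refine ⟨h, fun i j => ?_⟩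
      by_cases hij : x (z i) = x (z j)
      · exact Or.inl (Subtype.ext hij)
      · exact Or.inr ⟨trivial, hij⟩

end Pool.Agent.H37.AR
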