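import Pool.Agent.H70.AR.LTRR

/-!
# All reducts, all arities: blocks with different determining entries
-/

set_option autoImplicit false
set_option linter.unusedVariables false

namespace Pool.Agent.H37.AR

open Pool.Agent.H68.BP Pool.Agent.H58.SF Pool.Agent.H53.GC Pool.Agent.H53.NR Pool.Agent.H53.GR
open Pool.Agent.H57.SO (Pal Col vt Exa Sb FBl Sbn Bh fib sigF Same Uni Can Stp)
open Pool.Agent.H44.SO (ZS JS Loc OfT LInj sig0 str0 B2)
open Pool.Agent.H57.AR
open Function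

/-- different entries of a block are free from each other -/
theorem fre_of {V S X : Type} [LinearOrder V] {P : Pal S X} {c : V → V → S ⊕ X} (hc : Col P c)
    {s : S} {κ : Fin 6 → ℕ} {v : Fin 6 → V} (hv : ZS P c s κ v v) {l l' : Fin 6}
    (h : v l ≠ v l') : Fre P c (v l) (v l') := by
  have ht : ∀ i, vt P c (v i) = s := by
    intro i
    unfold vt
    rw [(hv.typ i).1]
    rfl
  unfold Fre
  rw [ht, ht]
  rcases lt_trichotomy (κ l) (κ l') with h1 | h1 | h1
  · exact (hv.free l l' h1).1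
  · exact absurd (hv.eq l l' h1).1 h
  · have h2 := hc.swap _ _ _ (hv.free l' l h1).1
    rw [P.rv_fr] at h2
    exact h2

/-- a block with the same colours and the same order -/
theorem zs_of {V V₀ S X : Type} [LinearOrder V] [LinearOrder V₀] {P : Pal S X}
    {c : V → V → S ⊕ X} {c₀ : V₀ → V₀ → S ⊕ X} {s : S} {κ : Fin 6 → ℕ} {v : Fin 6 → V}
    {z : Fin 6 → V₀} (hv : ZS P c s κ v v) (hlt : ∀ i j, z i < z j ↔ v i < v j)
    (hcc : ∀ i j, c₀ (z i) (z j) = c (v i) (v j)) : ZS P c₀ s κ z z := by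
  have heq : ∀ i j, v i = v j → z i = z j := by
    intro i j he
    have h1 := hlt i j
    have h2 := hlt j i
    rw [he] at h1 h2
    exact le_antisymm (not_lt.1 fun h' => lt_irrefl _ (h2.1 h'))
      (not_lt.1 fun h' => lt_irrefl _ (h1.1 h'))
  refine ⟨fun l => ?_, fun l l' hl => ?_, fun l l' hl => ?_, fun l l' hl => ?_⟩
  · have h1 : c₀ (z l) (z l) = Sum.inl s := (hcc l l).trans (hv.typ l).1
    exact ⟨h1, h1⟩
  · have h1 := heq l l' (hv.eq l l' hl).1
    exact ⟨h1, h1⟩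
  · have h1 := (hlt l l').2 (hv.lt l l' hl).1
    exact ⟨h1, h1, h1, h1⟩
  · have h1 := (hcc l l').trans (hv.free l l' hl).1
    exact ⟨h1, h1, h1, h1⟩

theorem pf_SEPR (hSHV : T_SHV) (hSHC : T_SHC) (hSEPW : T_SEPW) : T_SEPR := by
  intro σ ρ V S X _ P 𝔸 𝔹 M c hs h hcore s κ κ' J J' hJ hJ' hc1 hc2 v v' hv hv' htwo hne s' hs'
  obtain ⟨V₀, hV₀, c₀, hS⟩ := hSHV σ ρ V S X P 𝔸 𝔹 M c hs
  obtain ⟨h₀, hW, hK⟩ := hSHC σ ρ V S X P 𝔸 𝔹 M c hs V₀ c₀ hS h hcore
  have hcol := hs.lnk.col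
  have hno : NoTri P c (Sum.elim v v') := by
    intro a b d hab hbd had
    rcases a with a | a <;> rcases b with b | b <;> rcases d with d | d
    · exact Or.inl (fre_of hcol hv hab)
    · exact Or.inl (fre_of hcol hv hab)
    · exact Or.inr (Or.inr (fre_of hcol hv had))
    · exact Or.inr (Or.inl (fre_of hcol hv' hbd))
    · exact Or.inr (Or.inl (fre_of hcol hv hbd))
    · exact Or.inr (Or.inr (fre_of hcol hv' had))
    · exact Or.inl (fre_of hcol hv' hab)
    · exact Or.inl (fre_of hcol hv' hab)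
  obtain ⟨x, hx⟩ := hS.down (Fin 6 ⊕ Fin 6) (Sum.elim v v') hno
  have hel : Sum.elim (fun l => x (Sum.inl l)) (fun l => x (Sum.inr l)) = x := by
    funext i
    cases i <;> rfl
  have hL : LikP 𝔹 c c₀ v v' (fun l => x (Sum.inl l)) (fun l => x (Sum.inr l)) := by
    unfold LikP
    rw [hel]
    exact ⟨htwo, hx⟩
  have heq : ∀ i j, x i = x j → Sum.elim v v' i = Sum.elim v v' j := by
    intro i j he
    have h1 := (hx i j).1
    have h2 := (hx j i).1
    rw [he] at h1 h2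
    exact le_antisymm (not_lt.1 fun h' => lt_irrefl _ (h2.2 h'))
      (not_lt.1 fun h' => lt_irrefl _ (h1.2 h'))
  have hZ : ZS P c₀ s κ (fun l => x (Sum.inl l)) (fun l => x (Sum.inl l)) :=
    zs_of hv (fun i j => (hx (Sum.inl i) (Sum.inl j)).1) fun i j => (hx (Sum.inl i) (Sum.inl j)).2
  have hZ' : ZS P c₀ s κ' (fun l => x (Sum.inr l)) (fun l => x (Sum.inr l)) :=
    zs_of hv' (fun i j => (hx (Sum.inr i) (Sum.inr j)).1) fun i j => (hx (Sum.inr i) (Sum.inr j)).2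
  have hfin : ∃ s'', h₀ (fun l => x (Sum.inl l)) (fun l => x (Sum.inr l)) = Sum.inl s'' := by
    rw [hK _ _ _ _ hL, Pool.Agent.H70.AR.shv_inl]
    exact ⟨s', hs'⟩
  obtain ⟨s'', hs''⟩ := hfin
  exact hSEPW sig0 V₀ S X P (str0 V₀) M c₀ hS.stp h₀ hW s κ κ' J J'
    (Pool.Agent.H70.AR.jsr_js hS hK hJ) (Pool.Agent.H70.AR.jsr_js hS hK hJ') hc1 hc2 _ _ hZ hZ'
    (fun l hl l' hl' he => hne l hl l' hl' (heq (Sum.inl l) (Sum.inr l') he)) s'' hs''

end Pool.Agent.H37.AR
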